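import Mathlib
import Pool.Agent.Helper3_PPZ.Stmts

/-!
# Squad PPZ, module RTB: the residues are rational
-/

set_option autoImplicit false

universe u

namespace Pool.Agent.PPZ.H17

open MvPolynomial PGH PPX Pool.Agent.PPZ

/-! ### rational functionals -/

/-- an element which is not rational is mapped to `1` by a `ℚ`-linear map which vanishes at `1` -/
theorem exists_fun {k : Type u} [Field k] [CharZero k] (r : k) (hr : ¬ ∃ ρ : ℚ, r = ρ) :
    ∃ f : k →ₗ[ℚ] ℚ, f 1 = 0 ∧ f r = 1 := by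
  have h : r ∉ Submodule.span ℚ {(1 : k)} := by
    intro h
    rw [Submodule.mem_span_singleton] at h
    obtain ⟨ρ, h⟩ := h
    exact hr ⟨ρ, by rw [← h, Rat.smul_def, mul_one]⟩
  obtain ⟨f, hf, hf1⟩ := LinearMap.exists_extend_of_notMem
    (0 : Submodule.span ℚ {(1 : k)} →ₗ[ℚ] ℚ) h 1
  refine ⟨f, ?_, hf1⟩
  have := LinearMap.congr_fun hf ⟨1, Submodule.mem_span_singleton_self 1⟩
  simpa using this

/-- clearing denominators -/
theorem exists_den {k : Type u} (s : Finset k) (g : k → ℚ) : ∃ N : ℕ, 0 < N ∧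
    ∀ M : ℕ, N ∣ M → ∀ c ∈ s, ∃ m : ℤ, (m : ℚ) = M * g c := by
  classical
  refine ⟨∏ c ∈ s, (g c).den, Finset.prod_pos fun c _ => (g c).den_pos, ?_⟩
  rintro M hM c hc
  obtain ⟨t, ht⟩ := (Finset.dvd_prod_of_mem (fun c => (g c).den) hc).trans hM
  refine ⟨t * (g c).num, ?_⟩
  rw [ht]
  push_cast
  have h1 : ((g c).den : ℚ) * g c = (g c).num := by
    rw [mul_comm]
    exact Rat.mul_den_eq_num (g c)
  rw [mul_comm ((g c).den : ℚ) (t : ℚ), mul_assoc, h1]

/-! ### places -/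

section place

variable {L E : Type*} [Field L] [Field E] [Algebra L E]

theorem ord_prod (P : Place L E) {ι : Type*} (s : Finset ι) (f : ι → E) (h : ∀ i ∈ s, f i ≠ 0) :
    P.ord (∏ i ∈ s, f i) = ∑ i ∈ s, P.ord (f i) := by
  classical
  induction s using Finset.induction_on with
  | empty =>
    rw [Finset.prod_empty, Finset.sum_empty]
    have := P.ord_const (1 : L)
    rwa [map_one] at this
  | insert i s hi ih =>
    rw [Finset.prod_insert hi, Finset.sum_insert hi, P.ord_mul (h i (Finset.mem_insert_self _ _))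
      (Finset.prod_ne_zero_iff.mpr fun j hj => h j (Finset.mem_insert_of_mem hj)),
      ih fun j hj => h j (Finset.mem_insert_of_mem hj)]

/-- values of polynomials at a place -/
theorem ge_eval (P : Place L E) (x z : E) (α β : L) (hx : P.Ge 1 (x - algebraMap L E α))
    (hz : P.Ge 1 (z - algebraMap L E β)) (G : MvPolynomial (Fin 2) L) :
    P.Ge 1 (aeval ![x, z] G - algebraMap L E (eval ![α, β] G)) := by
  induction G using MvPolynomial.induction_on with
  | C c =>
    rw [aeval_C, eval_C, sub_self]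
    simp [Place.Ge]
  | add p q hp hq =>
    rw [map_add, map_add, map_add, add_sub_add_comm]
    exact hp.add hq
  | mul_X p v hp =>
    have hv : P.Ge 1 ((![x, z] : Fin 2 → E) v - algebraMap L E ((![α, β] : Fin 2 → L) v)) := by
      fin_cases v
      · exact hx
      · exact hz
    rw [map_mul, map_mul, aeval_X, eval_X, map_mul]
    have e : aeval ![x, z] p * (![x, z] : Fin 2 → E) v -
        algebraMap L E (eval ![α, β] p) * algebraMap L E ((![α, β] : Fin 2 → L) v) =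
        (aeval ![x, z] p - algebraMap L E (eval ![α, β] p)) * (![x, z] : Fin 2 → E) v +
        algebraMap L E (eval ![α, β] p) *
          ((![x, z] : Fin 2 → E) v - algebraMap L E ((![α, β] : Fin 2 → L) v)) := by ring
    rw [e]
    exact (hp.mul' (P.ge_zero_of_res hv) (by norm_num)).add
      ((P.ge_const _).mul' hv (by norm_num))

end place

/-! ### the polynomials -/

section poly

variable {k : Type u} [Field k]

/-- `∏ (X 1 - c) ^ (m₂ c) ∏ (X 0 - c) ^ (m₁ c)` -/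
noncomputable def pp (s₁ s₂ : Finset k) (m₁ m₂ : k → ℕ) : MvPolynomial (Fin 2) k :=
  (∏ c ∈ s₂, (X 1 - C c) ^ m₂ c) * ∏ c ∈ s₁, (X 0 - C c) ^ m₁ c

theorem eval_pp (s₁ s₂ : Finset k) (m₁ m₂ : k → ℕ) (α β : k) :
    eval ![α, β] (pp s₁ s₂ m₁ m₂) = (∏ c ∈ s₂, (β - c) ^ m₂ c) * ∏ c ∈ s₁, (α - c) ^ m₁ c := by
  simp [pp, map_prod]

theorem aeval_pp {E : Type*} [Field E] [Algebra k E] (s₁ s₂ : Finset k) (m₁ m₂ : k → ℕ)
    (x z : E) : aeval ![x, z] (pp s₁ s₂ m₁ m₂) =
      (∏ c ∈ s₂, (z - algebraMap k E c) ^ m₂ c) * ∏ c ∈ s₁, (x - algebraMap k E c) ^ m₁ c := by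
  simp [pp, map_prod]

theorem ord_pp {E : Type*} [Field E] [Algebra k E] (P : Place k E) (s₁ s₂ : Finset k)
    (m₁ m₂ : k → ℕ) (x z : E) (hx : ∀ c : k, algebraMap k E c ≠ x)
    (hz : ∀ c : k, algebraMap k E c ≠ z) : aeval ![x, z] (pp s₁ s₂ m₁ m₂) ≠ 0 ∧
      P.ord (aeval ![x, z] (pp s₁ s₂ m₁ m₂)) =
        ∑ c ∈ s₂, m₂ c * P.ord (z - algebraMap k E c) +
          ∑ c ∈ s₁, m₁ c * P.ord (x - algebraMap k E c) := by
  have hx' : ∀ c : k, x - algebraMap k E c ≠ 0 := fun c => sub_ne_zero.mpr (hx c).symm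
  have hz' : ∀ c : k, z - algebraMap k E c ≠ 0 := fun c => sub_ne_zero.mpr (hz c).symm
  have h1 : ∏ c ∈ s₂, (z - algebraMap k E c) ^ m₂ c ≠ 0 :=
    Finset.prod_ne_zero_iff.mpr fun c _ => pow_ne_zero _ (hz' c)
  have h2 : ∏ c ∈ s₁, (x - algebraMap k E c) ^ m₁ c ≠ 0 :=
    Finset.prod_ne_zero_iff.mpr fun c _ => pow_ne_zero _ (hx' c)
  rw [aeval_pp]
  refine ⟨mul_ne_zero h1 h2, ?_⟩
  rw [P.ord_mul h1 h2, ord_prod P _ _ fun c _ => pow_ne_zero _ (hz' c),
    ord_prod P _ _ fun c _ => pow_ne_zero _ (hx' c)]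
  simp only [P.ord_pow]

/-- the equation of the plane curve -/
noncomputable def FY (s₁ s₂ : Finset k) (m₁ m₂ : k → ℤ) (Y : k) : MvPolynomial (Fin 2) k :=
  pp s₁ s₂ (fun c => (-m₁ c).toNat) (fun c => (m₂ c).toNat) -
    C Y * pp s₁ s₂ (fun c => (m₁ c).toNat) (fun c => (-m₂ c).toNat)

theorem FY_ne [Infinite k] (s₁ s₂ : Finset k) (m₁ m₂ : k → ℤ) (Y : k) (hY : Y ≠ 0)
    (h : (∃ c ∈ s₁, 0 < m₁ c) ∨ ∃ c ∈ s₂, 0 < m₂ c) : FY s₁ s₂ m₁ m₂ Y ≠ 0 := by
  classical
  intro h0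
  rcases h with ⟨c₀, hc, hm⟩ | ⟨c₀, hc, hm⟩
  · obtain ⟨ζ, hζ⟩ := Infinite.exists_notMem_finset s₂
    have h1 := congrArg (eval ![c₀, ζ]) h0
    rw [FY, map_sub, map_mul, eval_C, eval_pp, eval_pp, map_zero] at h1
    have h2 : ∏ c ∈ s₁, (c₀ - c) ^ ((m₁ c).toNat) = 0 := by
      refine Finset.prod_eq_zero hc ?_
      rw [sub_self, zero_pow]
      omega
    rw [h2, mul_zero, mul_zero, sub_zero] at h1
    refine (mul_ne_zero ?_ ?_) h1
    · refine Finset.prod_ne_zero_iff.mpr fun c hc' => pow_ne_zero _ (sub_ne_zero.mpr ?_)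
      rintro rfl
      exact hζ hc'
    · refine Finset.prod_ne_zero_iff.mpr fun c hc' => ?_
      by_cases h3 : c = c₀
      · subst h3
        have : (-m₁ c).toNat = 0 := by omega
        rw [this, pow_zero]
        exact one_ne_zero
      · exact pow_ne_zero _ (sub_ne_zero.mpr (Ne.symm h3))
  · obtain ⟨ζ, hζ⟩ := Infinite.exists_notMem_finset s₁
    have h1 := congrArg (eval ![ζ, c₀]) h0
    rw [FY, map_sub, map_mul, eval_C, eval_pp, eval_pp, map_zero] at h1
    have h2 : ∏ c ∈ s₂, (c₀ - c) ^ ((m₂ c).toNat) = 0 := by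
      refine Finset.prod_eq_zero hc ?_
      rw [sub_self, zero_pow]
      omega
    rw [h2, zero_mul, zero_sub, neg_eq_zero] at h1
    refine (mul_ne_zero hY (mul_ne_zero ?_ ?_)) h1
    · refine Finset.prod_ne_zero_iff.mpr fun c hc' => ?_
      by_cases h3 : c = c₀
      · subst h3
        have : (-m₂ c).toNat = 0 := by omega
        rw [this, pow_zero]
        exact one_ne_zero
      · exact pow_ne_zero _ (sub_ne_zero.mpr (Ne.symm h3))
    · refine Finset.prod_ne_zero_iff.mpr fun c hc' => pow_ne_zero _ (sub_ne_zero.mpr ?_)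
      rintro rfl
      exact hζ hc'

end poly

/-! ### counting the good places -/

section count

variable {k : Type u} [Field k] [IsAlgClosed k] [CharZero k] {N₁ N₂ : ℕ}

/-- there is a good place over some `(a l, b j)` with `a l ∉ s₁`, `b j ∉ s₂` -/
theorem exists_node (hnod : NodStmt.{u}) (a : Fin N₁ → k) (b : Fin N₂ → k) (h1 : 32 ≤ N₁)
    (h2 : 32 ≤ N₂) (ha : Function.Injective a) (hb : Function.Injective b) (C : BC a b)
    (s₁ s₂ : Finset k) (q : ℕ) (hq : 4 ≤ q) (hs : Small q C s₁ s₂) :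
    ∃ l j P, C.Nd l j P ∧ a l ∉ s₁ ∧ b j ∉ s₂ := by
  classical
  obtain ⟨hfin, hh, -, -, h32, -, -, hx, hz, -, -⟩ := hnod a b ha hb C
  have hn : 0 < C.n := by
    have := h32 32 le_rfl h1 h2
    omega
  by_contra hcon
  push Not at hcon
  have hsub : C.nodes ⊆
      (⋃ l ∈ Finset.univ.filter (fun l => a l ∈ s₁),
        {P ∈ C.nodes | P.ord (C.x - algebraMap k C.E (a l)) = 1}) ∪
      ⋃ j ∈ Finset.univ.filter (fun j => b j ∈ s₂),
        {P ∈ C.nodes | P.ord (C.z - algebraMap k C.E (b j)) = 1} := by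
    rintro P ⟨l, j, hP⟩
    by_cases hl : a l ∈ s₁
    · left
      rw [Set.mem_iUnion₂]
      exact ⟨l, Finset.mem_filter.mpr ⟨Finset.mem_univ _, hl⟩, ⟨l, j, hP⟩, hP.2.1⟩
    · right
      rw [Set.mem_iUnion₂]
      exact ⟨j, Finset.mem_filter.mpr ⟨Finset.mem_univ _, hcon l j P hP hl⟩, ⟨l, j, hP⟩, hP.2.2⟩
  have hc1 : (⋃ l ∈ Finset.univ.filter (fun l => a l ∈ s₁),
        {P ∈ C.nodes | P.ord (C.x - algebraMap k C.E (a l)) = 1}).ncard ≤
        s₁.card * ht k C.x := by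
    refine (Finset.set_ncard_biUnion_le _ _).trans ?_
    refine (Finset.sum_le_sum fun l _ => hx l).trans ?_
    rw [Finset.sum_const, smul_eq_mul]
    refine Nat.mul_le_mul_right _ ?_
    refine Finset.card_le_card_of_injOn a (fun l hl => (Finset.mem_filter.mp hl).2) ?_
    exact fun _ _ _ _ h => ha h
  have hc2 : (⋃ j ∈ Finset.univ.filter (fun j => b j ∈ s₂),
        {P ∈ C.nodes | P.ord (C.z - algebraMap k C.E (b j)) = 1}).ncard ≤
        s₂.card * ht k C.z := by
    refine (Finset.set_ncard_biUnion_le _ _).trans ?_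
    refine (Finset.sum_le_sum fun j _ => hz j).trans ?_
    rw [Finset.sum_const, smul_eq_mul]
    refine Nat.mul_le_mul_right _ ?_
    refine Finset.card_le_card_of_injOn b (fun l hl => (Finset.mem_filter.mp hl).2) ?_
    exact fun _ _ _ _ h => hb h
  have hf : ((⋃ l ∈ Finset.univ.filter (fun l => a l ∈ s₁),
        {P ∈ C.nodes | P.ord (C.x - algebraMap k C.E (a l)) = 1}) ∪
      ⋃ j ∈ Finset.univ.filter (fun j => b j ∈ s₂),
        {P ∈ C.nodes | P.ord (C.z - algebraMap k C.E (b j)) = 1}).Finite := by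
    refine hfin.subset (Set.union_subset ?_ ?_)
    · exact Set.iUnion₂_subset fun l _ P hP => hP.1
    · exact Set.iUnion₂_subset fun l _ P hP => hP.1
  have hle : C.n ≤ s₁.card * ht k C.x + s₂.card * ht k C.z := by
    refine (Set.ncard_le_ncard hsub hf).trans ?_
    exact (Set.ncard_union_le _ _).trans (Nat.add_le_add hc1 hc2)
  obtain ⟨e1, e2⟩ := hs
  rw [mul_assoc] at e1 e2
  nlinarith

end count

/-! ### the theorem -/

theorem rtb (hnod : NodStmt.{u}) (_hval : ValStmt.{u}) : RtbStmt.{u} := by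
  intro q hq
  refine ⟨32, ?_⟩
  intro k _ _ _ N₁ N₂ a b h1 h2 ha hb T s₁ s₂ r₁ r₂ hT
  classical
  have hinf : Infinite k := IsAlgClosed.instInfinite
  -- the main step: a functional gives a contradiction
  have main : ∀ f : k →ₗ[ℚ] ℚ, f 1 = 0 → ¬ ((∃ c ∈ s₁, f (r₁ c) = 1) ∨ ∃ c ∈ s₂, f (r₂ c) = 1) := by
    intro f hf1 hex
    obtain ⟨N, hN, hN1⟩ := exists_den s₁ (fun c => f (r₁ c))
    obtain ⟨N', hN', hN1'⟩ := exists_den s₂ (fun c => f (r₂ c))
    have hm1 : ∀ c : k, ∃ m : ℤ, c ∈ s₁ → (m : ℚ) = (N * N' : ℕ) * f (r₁ c) := by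
      intro c
      by_cases hc : c ∈ s₁
      · obtain ⟨m, hm⟩ := hN1 (N * N') (Dvd.intro _ rfl) c hc
        exact ⟨m, fun _ => hm⟩
      · exact ⟨0, fun h => absurd h hc⟩
    have hm2 : ∀ c : k, ∃ m : ℤ, c ∈ s₂ → (m : ℚ) = (N * N' : ℕ) * f (r₂ c) := by
      intro c
      by_cases hc : c ∈ s₂
      · obtain ⟨m, hm⟩ := hN1' (N * N') (Dvd.intro_left _ rfl) c hc
        exact ⟨m, fun _ => hm⟩
      · exact ⟨0, fun h => absurd h hc⟩
    choose m₁ hm₁ using hm1
    choose m₂ hm₂ using hm2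
    have hpos : (∃ c ∈ s₁, 0 < m₁ c) ∨ ∃ c ∈ s₂, 0 < m₂ c := by
      have hNN : (0 : ℚ) < (N * N' : ℕ) := by
        exact_mod_cast Nat.mul_pos hN hN'
      rcases hex with ⟨c, hc, h⟩ | ⟨c, hc, h⟩
      · left
        refine ⟨c, hc, ?_⟩
        have := hm₁ c hc
        rw [h, mul_one] at this
        have h0 : (0 : ℚ) < m₁ c := by rw [this]; exact hNN
        exact_mod_cast h0
      · right
        refine ⟨c, hc, ?_⟩
        have := hm₂ c hc
        rw [h, mul_one] at this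
        have h0 : (0 : ℚ) < m₂ c := by rw [this]; exact hNN
        exact_mod_cast h0
    let nu : MvPolynomial (Fin 2) k := pp s₁ s₂ (fun c => (-m₁ c).toNat) (fun c => (m₂ c).toNat)
    let de : MvPolynomial (Fin 2) k := pp s₁ s₂ (fun c => (m₁ c).toNat) (fun c => (-m₂ c).toNat)
    let Y : Fin N₁ → Fin N₂ → k := fun l j => eval ![a l, b j] nu / eval ![a l, b j] de
    have hev : ∀ (w₁ w₂ : k → ℕ) (l : Fin N₁) (j : Fin N₂), a l ∉ s₁ → b j ∉ s₂ →
        eval ![a l, b j] (pp s₁ s₂ w₁ w₂) ≠ 0 := by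
      intro w₁ w₂ l j hl hj
      rw [eval_pp]
      refine mul_ne_zero ?_ ?_
      · refine Finset.prod_ne_zero_iff.mpr fun c hc' => pow_ne_zero _ (sub_ne_zero.mpr ?_)
        rintro rfl
        exact hj hc'
      · refine Finset.prod_ne_zero_iff.mpr fun c hc' => pow_ne_zero _ (sub_ne_zero.mpr ?_)
        rintro rfl
        exact hl hc'
    let F : MvPolynomial (Fin 2) k := ∏ l, ∏ j,
      if a l ∉ s₁ ∧ b j ∉ s₂ then FY s₁ s₂ m₁ m₂ (Y l j) else 1
    have hF : F ≠ 0 := by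
      refine Finset.prod_ne_zero_iff.mpr fun l _ => Finset.prod_ne_zero_iff.mpr fun j _ => ?_
      split_ifs with h
      · exact FY_ne s₁ s₂ m₁ m₂ _ (div_ne_zero (hev _ _ l j h.1 h.2) (hev _ _ l j h.1 h.2)) hpos
      · exact one_ne_zero
    obtain ⟨i, ⟨hsm, hord⟩, hFi⟩ := (hT.and (T.gen F hF)).exists
    obtain ⟨C, hC⟩ : ∃ C : BC a b, C = T.C i := ⟨_, rfl⟩
    rw [← hC] at hsm hord hFi
    apply hFi
    obtain ⟨-, -, -, -, -, -, -, -, -, hnc, -⟩ := hnod a b ha hb C
    have hx : ∀ c : k, algebraMap k C.E c ≠ C.x := fun c => (hnc c).1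
    have hz : ∀ c : k, algebraMap k C.E c ≠ C.z := fun c => (hnc c).2
    obtain ⟨l, j, P, hP, hl, hj⟩ := exists_node hnod a b h1 h2 ha hb C s₁ s₂ q hq hsm
    have hnu : C.ev2 nu ≠ 0 := (ord_pp P s₁ s₂ _ _ C.x C.z hx hz).1
    have hde : C.ev2 de ≠ 0 := (ord_pp P s₁ s₂ _ _ C.x C.z hx hz).1
    -- all orders vanish
    have hcomb : ∀ Q : Place k C.E, ∑ c ∈ s₂, m₂ c * Q.ord (C.z - algebraMap k C.E c) -
        ∑ c ∈ s₁, m₁ c * Q.ord (C.x - algebraMap k C.E c) = 0 := by
      intro Q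
      have h3 := congrArg f (hord Q)
      have h4 : f ((Q.ord C.ph : ℤ) : k) = 0 := by
        have e : ((Q.ord C.ph : ℤ) : k) = (Q.ord C.ph : ℚ) • (1 : k) := by
          rw [Rat.smul_def, mul_one]
          push_cast
          rfl
        rw [e, map_smul, hf1, smul_zero]
      have h5 : ∀ (r : k) (n : ℤ), f (r * n) = n * f r := by
        intro r n
        have e : r * (n : k) = (n : ℚ) • r := by
          rw [Rat.smul_def]
          push_cast
          ring
        rw [e, map_smul, smul_eq_mul]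
      rw [h4, map_sub, map_sum, map_sum] at h3
      simp only [h5] at h3
      have h6 : ((∑ c ∈ s₂, m₂ c * Q.ord (C.z - algebraMap k C.E c) -
        ∑ c ∈ s₁, m₁ c * Q.ord (C.x - algebraMap k C.E c) : ℤ) : ℚ) = 0 := by
        push_cast
        have e1 : ∑ c ∈ s₂, (m₂ c : ℚ) * (Q.ord (C.z - algebraMap k C.E c) : ℚ) =
            (N * N' : ℕ) * ∑ c ∈ s₂, (Q.ord (C.z - algebraMap k C.E c) : ℚ) * f (r₂ c) := by
          rw [Finset.mul_sum]
          refine Finset.sum_congr rfl fun c hc => ?_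
          rw [hm₂ c hc]
          ring
        have e2 : ∑ c ∈ s₁, (m₁ c : ℚ) * (Q.ord (C.x - algebraMap k C.E c) : ℚ) =
            (N * N' : ℕ) * ∑ c ∈ s₁, (Q.ord (C.x - algebraMap k C.E c) : ℚ) * f (r₁ c) := by
          rw [Finset.mul_sum]
          refine Finset.sum_congr rfl fun c hc => ?_
          rw [hm₁ c hc]
          ring
        rw [e1, e2, ← mul_sub, ← h3, mul_zero]
      exact_mod_cast h6
    have hoo : ∀ Q : Place k C.E, Q.ord (C.ev2 nu / C.ev2 de) = 0 := by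
      intro Q
      rw [Q.ord_div hnu hde]
      have e1 := (ord_pp Q s₁ s₂ (fun c => (-m₁ c).toNat) (fun c => (m₂ c).toNat)
        C.x C.z hx hz).2
      have e2 := (ord_pp Q s₁ s₂ (fun c => (m₁ c).toNat) (fun c => (-m₂ c).toNat)
        C.x C.z hx hz).2
      have e3 := hcomb Q
      have e4 : ∑ c ∈ s₂, m₂ c * Q.ord (C.z - algebraMap k C.E c) =
          ∑ c ∈ s₂, ((m₂ c).toNat : ℤ) * Q.ord (C.z - algebraMap k C.E c) -
          ∑ c ∈ s₂, ((-m₂ c).toNat : ℤ) * Q.ord (C.z - algebraMap k C.E c) := by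
        rw [← Finset.sum_sub_distrib]
        refine Finset.sum_congr rfl fun c _ => ?_
        rw [← sub_mul]
        congr 1
        omega
      have e5 : ∑ c ∈ s₁, m₁ c * Q.ord (C.x - algebraMap k C.E c) =
          ∑ c ∈ s₁, ((m₁ c).toNat : ℤ) * Q.ord (C.x - algebraMap k C.E c) -
          ∑ c ∈ s₁, ((-m₁ c).toNat : ℤ) * Q.ord (C.x - algebraMap k C.E c) := by
        rw [← Finset.sum_sub_distrib]
        refine Finset.sum_congr rfl fun c _ => ?_
        rw [← sub_mul]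
        congr 1
        omega
      rw [e4, e5] at e3
      have e1' : Q.ord (C.ev2 nu) = _ := e1
      have e2' : Q.ord (C.ev2 de) = _ := e2
      rw [e1', e2']
      linarith
    obtain ⟨κ, hκ⟩ := const_of_ge_zero (L := k) (y := C.ev2 nu / C.ev2 de) (fun Q => by
      rw [Q.ge_iff (div_ne_zero hnu hde), hoo Q])
    have hκ' : C.ev2 nu = algebraMap k C.E κ * C.ev2 de := by
      rw [hκ, div_mul_cancel₀ _ hde]
    -- the value of the constant
    have hxP : P.Ge 1 (C.x - algebraMap k C.E (a l)) := by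
      rw [P.ge_iff (sub_ne_zero.mpr (hx _).symm)]
      exact hP.2.1.ge
    have hzP : P.Ge 1 (C.z - algebraMap k C.E (b j)) := by
      rw [P.ge_iff (sub_ne_zero.mpr (hz _).symm)]
      exact hP.2.2.ge
    have hvn := ge_eval P C.x C.z (a l) (b j) hxP hzP nu
    have hvd := ge_eval P C.x C.z (a l) (b j) hxP hzP de
    have hval : P.Ge 1 (algebraMap k C.E (κ * eval ![a l, b j] de - eval ![a l, b j] nu)) := by
      have e : algebraMap k C.E (κ * eval ![a l, b j] de - eval ![a l, b j] nu) =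
          (aeval ![C.x, C.z] nu - algebraMap k C.E (eval ![a l, b j] nu)) -
          algebraMap k C.E κ * (aeval ![C.x, C.z] de - algebraMap k C.E (eval ![a l, b j] de)) := by
        have h7 : aeval ![C.x, C.z] nu = algebraMap k C.E κ * aeval ![C.x, C.z] de := hκ'
        rw [h7, map_sub, map_mul]
        ring
      rw [e]
      exact hvn.sub ((P.ge_const _).mul' hvd (by norm_num))
    have hκY : κ = Y l j := by
      by_contra hne
      refine P.not_ge_one_const ?_ hval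
      intro h8
      apply hne
      have h9 := hev (fun c => (m₁ c).toNat) (fun c => (-m₂ c).toNat) l j hl hj
      exact (eq_div_iff h9).mpr (sub_eq_zero.mp h8)
    have hzero : C.ev2 (FY s₁ s₂ m₁ m₂ (Y l j)) = 0 := by
      change aeval ![C.x, C.z] (nu - MvPolynomial.C (Y l j) * de) = 0
      rw [map_sub, map_mul, aeval_C, ← hκY]
      exact sub_eq_zero.mpr hκ'
    change aeval ![C.x, C.z] F = 0
    rw [map_prod]
    refine Finset.prod_eq_zero (Finset.mem_univ l) ?_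
    rw [map_prod]
    refine Finset.prod_eq_zero (Finset.mem_univ j) ?_
    rw [if_pos ⟨hl, hj⟩]
    exact hzero
  constructor
  · intro c hc
    by_contra hcon
    obtain ⟨f, hf1, hf⟩ := exists_fun (r₁ c) hcon
    exact main f hf1 (Or.inl ⟨c, hc, hf⟩)
  · intro c hc
    by_contra hcon
    obtain ⟨f, hf1, hf⟩ := exists_fun (r₂ c) hcon
    exact main f hf1 (Or.inr ⟨c, hc, hf⟩)

end Pool.Agent.PPZ.H17
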